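import Pool.Agent.Helper65.FX.St

set_option autoImplicit false

namespace Pool.Agent.Helper39.FX

open Pool.Agent.Helper65.FX Pool.Agent.Helper87.FX
open Set Topology Metric Filter
open scoped ContDiff

theorem hNRM : StNRM := by
  intro V _ _ _ P B y₀ hP hB h0
  have hne : (∞ : WithTop ℕ∞) ≠ 0 := by simp
  have hdP : Differentiable ℝ P := hP.differentiable hne
  have hcd : Continuous (fderiv ℝ P) := hP.continuous_fderiv hne
  -- the continuous map
  let F : V × V × ℂ → (ℂ →L[ℝ] ℂ) := fun z =>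
    (fderiv ℝ P (z.2.1 + B z.1 z.2.2)).comp (B z.1) - ContinuousLinearMap.id ℝ ℂ
  have hB1 : Continuous (fun z : V × V × ℂ => B z.1) := hB.comp continuous_fst
  have hBz : Continuous (fun z : V × V × ℂ => B z.1 z.2.2) :=
    hB1.clm_apply (continuous_snd.comp continuous_snd)
  have hpt : Continuous (fun z : V × V × ℂ => z.2.1 + B z.1 z.2.2) :=
    (continuous_fst.comp continuous_snd).add hBz
  have hF : Continuous F := ((hcd.comp hpt).clm_comp hB1).sub continuous_const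
  have hF0 : ‖F (y₀, y₀, 0)‖ < 1 / 2 := by
    simpa [F] using h0
  have hev : ∀ᶠ z in 𝓝 (y₀, y₀, (0 : ℂ)), ‖F z‖ < 1 / 2 :=
    (hF.norm.continuousAt).eventually_lt continuousAt_const hF0
  obtain ⟨ρ, hρ, hball⟩ := Metric.mem_nhds_iff.1 hev
  filter_upwards [Metric.ball_mem_nhds (y₀, y₀, (0 : ℂ)) hρ] with z hz heq
  have hz1 : dist z.1 y₀ < ρ := lt_of_le_of_lt (le_max_left _ _) hz
  have hz2 : dist z.2 (y₀, (0 : ℂ)) < ρ := lt_of_le_of_lt (le_max_right _ _) hz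
  have hz21 : dist z.2.1 y₀ < ρ := lt_of_le_of_lt (le_max_left _ _) hz2
  have hz22 : dist z.2.2 (0 : ℂ) < ρ := lt_of_le_of_lt (le_max_right _ _) hz2
  have hder : ∀ τ ∈ ball (0 : ℂ) ρ, HasFDerivWithinAt (fun τ : ℂ => P (z.2.1 + B z.1 τ) - τ)
      (F (z.1, z.2.1, τ)) (ball (0 : ℂ) ρ) τ := by
    intro τ _
    have h1 : HasFDerivAt (fun τ : ℂ => z.2.1 + B z.1 τ) (B z.1) τ := by
      have := (B z.1).hasFDerivAt (x := τ)
      exact this.const_add z.2.1
    have h2 : HasFDerivAt P (fderiv ℝ P (z.2.1 + B z.1 τ)) (z.2.1 + B z.1 τ) :=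
      (hdP _).hasFDerivAt
    have h3 : HasFDerivAt (fun τ : ℂ => P (z.2.1 + B z.1 τ))
        ((fderiv ℝ P (z.2.1 + B z.1 τ)).comp (B z.1)) τ := h2.comp τ h1
    exact (h3.sub (hasFDerivAt_id τ)).hasFDerivWithinAt
  have hbd : ∀ τ ∈ ball (0 : ℂ) ρ, ‖F (z.1, z.2.1, τ)‖ ≤ 1 / 2 := by
    intro τ hτ
    have hm : (z.1, z.2.1, τ) ∈ ball (y₀, y₀, (0 : ℂ)) ρ := by
      simp only [Metric.mem_ball] at hτ ⊢
      exact max_lt hz1 (max_lt hz21 hτ)
    exact le_of_lt (hball hm)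
  have hmv := (convex_ball (0 : ℂ) ρ).norm_image_sub_le_of_norm_hasFDerivWithin_le hder hbd
    (mem_ball_self hρ) (mem_ball.2 hz22)
  have he : (fun τ : ℂ => P (z.2.1 + B z.1 τ) - τ) z.2.2 -
      (fun τ : ℂ => P (z.2.1 + B z.1 τ) - τ) 0 = - z.2.2 := by
    simp only [map_zero, add_zero, sub_zero, heq]
    ring
  rw [he] at hmv
  rw [norm_neg, sub_zero] at hmv
  have : ‖z.2.2‖ = 0 := le_antisymm (by linarith) (norm_nonneg _)
  exact norm_eq_zero.1 this

end Pool.Agent.Helper39.FX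

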